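import Mathlib
import Pool.Agent.R283.KPSing

/-!
# A singular quasi-linear map with a compatible pair whose difference is not compact (MP_d3af15_an)

Outline.  Let `K` be the Kalton–Peck map, corrected by a linear map so that it takes its values in
`ℓ²`, and let `b` be the unitary operator exchanging the coordinates `2n` and `2n+1`.  Then
`Ω = K ∘ b` is quasi-linear and singular.  For the projection `P` onto the even coordinates,
`T = P` and `U = b P b = I - P`, we have `Ω U - T Ω = (K P - P K) b`, which is trivial, but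
`T - U = 2 P - I` is not compact.  The singularity of `K` (known) is proved by a sign argument on
almost disjoint vectors.
-/

set_option autoImplicit false
open Filter Topology
open scoped ENNReal

namespace Pool.Agent.Results.MP_d3af15_an.NoncompactDifference

section defs

variable {H : Type} [NormedAddCommGroup H] [InnerProductSpace ℝ H]

/-- `Ω` is a quasi-linear map: it is homogeneous and quasi-additive. -/
def IsQuasiLinear (Ω : H → H) : Prop :=
  (∀ (c : ℝ) (x : H), Ω (c • x) = c • Ω x) ∧
    ∃ Q : ℝ, ∀ x y, ‖Ω (x + y) - Ω x - Ω y‖ ≤ Q * (‖x‖ + ‖y‖)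

/-- `Φ` is trivial on the subspace `W`: it is at bounded distance from a linear (not necessarily
continuous) map. -/
def IsTrivialOn (W : Submodule ℝ H) (Φ : H → H) : Prop :=
  ∃ (L : W →ₗ[ℝ] H) (C : ℝ), 0 ≤ C ∧ ∀ x : W, ‖Φ x - L x‖ ≤ C * ‖x‖

/-- `Ω` is singular: it is not trivial on any infinite-dimensional closed subspace. -/
def IsSingular (Ω : H → H) : Prop :=
  ∀ W : Submodule ℝ H, IsClosed (W : Set H) → ¬ FiniteDimensional ℝ W → ¬ IsTrivialOn W Ω

/-- The pair `(T, U)` is compatible with `Ω`: the map `Ω U - T Ω` is trivial on the whole space. -/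
def IsCompatible (Ω : H → H) (T U : H →L[ℝ] H) : Prop :=
  IsTrivialOn ⊤ fun x => Ω (U x) - T (Ω x)

variable (H) in
/-- The assertion of the question for the Hilbert space `H`: for every singular quasi-linear map `Ω`
and every pair `(T, U)` of operators compatible with `Ω`, the operator `T - U` is compact. -/
def DifferencesCompact : Prop :=
  ∀ (Ω : H → H) (T U : H →L[ℝ] H), IsQuasiLinear Ω → IsSingular Ω → IsCompatible Ω T U →
    IsCompactOperator (T - U)

end defs

open Pool.Agent.R283.KP

/-- the linear correction -/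
noncomputable def La : L2 →ₗ[ℝ] (ℕ → ℝ) := Classical.choose exists_correction

/-- the Kalton–Peck map with values in `ℓ²` -/
noncomputable def om (x : L2) : L2 := Classical.choose (Classical.choose_spec exists_correction x)

lemma om_apply (x : L2) (n : ℕ) : om x n = kp x n - La x n :=
  Classical.choose_spec (Classical.choose_spec exists_correction x) n

/-- the quasi-linear map -/
noncomputable def Om (x : L2) : L2 := om (be x)

lemma om_smul (c : ℝ) (x : L2) : om (c • x) = c • om x := by
  ext n
  rw [om_apply, lp.coeFn_smul, Pi.smul_apply, om_apply, kp_smul, map_smul]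
  simp only [Pi.smul_apply, smul_eq_mul]
  ring

lemma om_quasi (x y : L2) : ‖om (x + y) - om x - om y‖ ≤ 6 * (‖x‖ + ‖y‖) := by
  obtain ⟨u, hu, hur⟩ := kp_quasi x y
  have : om (x + y) - om x - om y = u := by
    ext n
    rw [hu, lp.coeFn_sub, Pi.sub_apply, lp.coeFn_sub, Pi.sub_apply, om_apply, om_apply, om_apply,
      map_add]
    simp only [Pi.add_apply, Pi.sub_apply]
    ring
  rw [this]
  exact hur

lemma isQuasiLinear : IsQuasiLinear Om := by
  refine ⟨fun c x => ?_, 6, fun x y => ?_⟩
  · rw [Om, map_smul, om_smul]; rfl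
  · have h := om_quasi (be x) (be y)
    rw [norm_be, norm_be, ← map_add] at h
    exact h

lemma isSingular : IsSingular Om := by
  rintro W _ hW ⟨L, C, hC, hL⟩
  set W' : Submodule ℝ L2 := W.map (be : L2 →ₗ[ℝ] L2) with hW'
  have hmem : ∀ y : W', be (y : L2) ∈ W := by
    rintro ⟨_, x, hx, rfl⟩
    show be (be x) ∈ W
    rw [be_be]
    exact hx
  let φ : W' →ₗ[ℝ] W := ((be : L2 →ₗ[ℝ] L2).comp W'.subtype).codRestrict W hmem
  have hφ : ∀ y : W', ((φ y : W) : L2) = be (y : L2) := fun y => rfl
  have hW'fin : ¬ FiniteDimensional ℝ W' := by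
    intro h
    apply hW
    let ψ : W →ₗ[ℝ] W' := ((be : L2 →ₗ[ℝ] L2).comp W.subtype).codRestrict W'
      fun x => ⟨x, x.2, rfl⟩
    refine Module.Finite.of_injective ψ fun x y hxy => ?_
    have h1 : be (x : L2) = be (y : L2) := congrArg Subtype.val hxy
    have h2 := congrArg be h1
    rw [be_be, be_be] at h2
    exact Subtype.ext h2
  let ev : L2 →ₗ[ℝ] (ℕ → ℝ) :=
    { toFun := fun x n => x n
      map_add' := fun _ _ => rfl
      map_smul' := fun _ _ => rfl }
  refine kp_singular hW'fin (La.comp W'.subtype + (ev.comp L).comp φ) hC fun y => ?_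
  refine ⟨om y - L (φ y), fun n => ?_, ?_⟩
  · rw [lp.coeFn_sub, Pi.sub_apply, om_apply]
    show kp y n - La y n - L (φ y) n = kp y n - (La y n + L (φ y) n)
    ring
  · have h1 := hL (φ y)
    have h2 : Om ((φ y : W) : L2) = om y := by
      rw [Om, hφ, be_be]
    have h3 : ‖φ y‖ = ‖y‖ := by
      show ‖be (y : L2)‖ = ‖(y : L2)‖
      rw [norm_be]
    rw [h2, h3] at h1
    exact h1

lemma isCompatible : IsCompatible Om Pe Po := by
  have hex : ∀ x : L2, ∃ u : L2, (∀ n, u n = (if n % 2 = 0 then La x n else 0) - La (Pe x) n) ∧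
      ‖om (Pe x) - Pe (om x) - u‖ ≤ ‖x‖ := by
    intro x
    obtain ⟨d, hd, hdn⟩ := kp_PA {n : ℕ | n % 2 = 0} x
    refine ⟨om (Pe x) - Pe (om x) - d, fun n => ?_, ?_⟩
    · rw [lp.coeFn_sub, Pi.sub_apply, lp.coeFn_sub, Pi.sub_apply, hd, om_apply]
      show kp (Pe x) n - La (Pe x) n - (if n % 2 = 0 then om x n else 0) -
        (kp (Pe x) n - if n % 2 = 0 then kp x n else 0) = _
      rw [om_apply]
      split_ifs <;> ring
    · have : om (Pe x) - Pe (om x) - (om (Pe x) - Pe (om x) - d) = d := by abel
      rw [this]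
      exact hdn
  choose u hu hun using hex
  let L0 : L2 →ₗ[ℝ] L2 :=
    { toFun := u
      map_add' := fun x y => by
        ext n
        rw [lp.coeFn_add, Pi.add_apply, hu, hu, hu, map_add, map_add, map_add]
        simp only [Pi.add_apply]
        split_ifs <;> ring
      map_smul' := fun c x => by
        ext n
        rw [RingHom.id_apply, lp.coeFn_smul, Pi.smul_apply, hu, hu, map_smul, map_smul, map_smul]
        simp only [Pi.smul_apply, smul_eq_mul]
        split_ifs <;> ring }
  refine ⟨(L0.comp (be : L2 →ₗ[ℝ] L2)).comp (⊤ : Submodule ℝ L2).subtype, 1, zero_le_one,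
    fun x => ?_⟩
  have h1 := hun (be x)
  rw [norm_be] at h1
  have h2 : be (Po (x : L2)) = Pe (be x) := by
    have := be_Pe (be x)
    rw [be_be] at this
    rw [← this, be_be]
  show ‖om (be (Po (x : L2))) - Pe (om (be x)) - u (be x)‖ ≤ 1 * ‖(x : L2)‖
  rw [h2, one_mul]
  exact h1

/-- **Answer to Q1 (disproof).**  On the real Hilbert space `ℓ²` it is not true that `T - U` is compact
for every singular quasi-linear map `Ω` and every pair `(T, U)` of operators compatible with
`Ω`. -/
theorem result : ¬ DifferencesCompact (lp (fun _ : ℕ => ℝ) 2) :=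
  fun h => not_compact (h Om Pe Po isQuasiLinear isSingular isCompatible)

end Pool.Agent.Results.MP_d3af15_an.NoncompactDifference
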